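import Pool.Agent.H201.NC.Gen

/-!
# Normality of a real number: a local criterion and exponentially hot points

Let `b ≥ 2` and let `x` be any real number, for instance an irrational algebraic number. Let `W` be
any nonempty set of words of `M ≥ 1` digits, for instance one digit. It is shown that `x` is normal
in base `b` if and only if the words of `W` have together at least the right lower frequency
`|W| b^(-M)` and one of the following two conditions holds:

* (words) for every `ε > 0` there are arbitrarily large `L` such that every word `u` of `L` digits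
  which begins with a word of `W` has upper frequency at most `b^(-(1-ε)L)`, with the exception of
  a set of words of total upper frequency at most `ε`;
* (points) no infinite sequence `y` of digits which begins with a word of `W` is a hot point: there
  is no `ε > 0` such that for arbitrarily large `L` the word of the first `L` digits of `y` has
  upper frequency at least `b^(-(1-ε)L)` in `x`.

So a number which is not normal has, inside of every cylinder whose frequency is not too small, a
point which is exponentially hot. The criteria of Pyatetskii-Shapiro and of Bailey and Misiurewicz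
(hot spots) are about all words (no set `W`), and constants instead of exponents.
All statements hold along an arbitrary filter `l ≤ atTop` of lengths `N`, for instance along any
sequence of lengths tending to infinity. The proofs are finite combinatorics
(`Pool.Agent.H201.NC`): a large deviation bound for words, a covering argument, and (for points)
finitely additive frequencies along ultrafilters and compactness.
-/

set_option autoImplicit false

namespace Pool.Agent.Results.MP_5b6025_nt.LocalHotSpots

open Filter Topology
open Pool.Agent.H201.NC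

/-- the digit of index `n + 1` after the point of the fractional part of `x`, in base `b` -/
noncomputable def digit (b : ℕ) [NeZero b] (x : ℝ) (n : ℕ) : Fin b :=
  Fin.ofNat b ⌊(b : ℝ) ^ (n + 1) * Int.fract x⌋₊

/-- the number of the `n < N` such that a word of the set `S` (of words of `k` digits) starts at the
place `n + 1` of the expansion -/
noncomputable def count (b : ℕ) [NeZero b] (x : ℝ) {k : ℕ} (S : Finset (Fin k → Fin b)) (N : ℕ) : ℕ :=
  ((Finset.range N).filter fun n => (fun j : Fin k => digit b x (n + j)) ∈ S).card

/-- all words of `k` digits have the frequency `b ^ (-k)` along `l`; `l = atTop`: normality -/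
def NormalAlong (b : ℕ) [NeZero b] (x : ℝ) (l : Filter ℕ) : Prop :=
  ∀ k : ℕ, 1 ≤ k → ∀ w : Fin k → Fin b,
    Tendsto (fun N => (count b x {w} N : ℝ) / N) l (𝓝 (((b : ℝ) ^ k)⁻¹))

/-- the lower frequency of the set `W` along `l` is at least `|W| b^(-M)` -/
def AtLeast (b : ℕ) [NeZero b] (x : ℝ) (l : Filter ℕ) {M : ℕ} (W : Finset (Fin M → Fin b)) : Prop :=
  ∀ δ : ℝ, 0 < δ → ∀ᶠ N in l, (W.card / (b : ℝ) ^ M - δ) * N ≤ count b x W N

/-- the condition for words -/
def ColdWords (b : ℕ) [NeZero b] (x : ℝ) (l : Filter ℕ) {M : ℕ} (W : Finset (Fin M → Fin b)) :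
    Prop :=
  ∀ ε : ℝ, 0 < ε → ∀ L0 : ℕ, ∃ L ≥ L0, ∃ H : Finset (Fin L → Fin b),
    (∀ᶠ N in l, (count b x H N : ℝ) ≤ ε * N) ∧
    ∀ u ∉ H, ∀ h : M ≤ L, (fun j => u (Fin.castLE h j)) ∈ W →
      ∀ᶠ N in l, (count b x {u} N : ℝ) ≤ (b : ℝ) ^ (-(1 - ε) * L) * N

/-- exponentially hot points: for some `ε > 0` and arbitrarily large `L` the number of the
occurrences of the first `L` digits of `y` before `N` is larger than `b^(-(1-ε)L) N`, for `N`
frequently in `l` (for `l = atTop`: for infinitely many `N`) -/
def HotPoint (b : ℕ) [NeZero b] (x : ℝ) (l : Filter ℕ) (y : ℕ → Fin b) : Prop :=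
  ∃ ε : ℝ, 0 < ε ∧ ∀ K : ℕ, ∃ L ≥ K,
    ∃ᶠ N in l, (b : ℝ) ^ (-(1 - ε) * L) * N < count b x {fun j : Fin L => y j} N

theorem count_eq (b : ℕ) [NeZero b] (x : ℝ) {k : ℕ} (S : Finset (Fin k → Fin b)) (N : ℕ) :
    count b x S N = occ (digit b x) S 0 N := by
  unfold count occ win
  simp only [zero_add]

/-- **Local criterion for normality, and exponentially hot points.** -/
theorem result (b : ℕ) [NeZero b] (hb : 2 ≤ b) (x : ℝ) (l : Filter ℕ) (hl : l ≤ atTop) {M : ℕ}
    (hM : 1 ≤ M) (W : Finset (Fin M → Fin b)) (hW : W.Nonempty) :
    (NormalAlong b x l ↔ AtLeast b x l W ∧ ColdWords b x l W) ∧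
    (NormalAlong b x l ↔ AtLeast b x l W ∧
      ∀ y : ℕ → Fin b, (fun j : Fin M => y j) ∈ W → ¬ HotPoint b x l y) := by
  classical
  have : Inhabited (Fin b) := ⟨Fin.ofNat b 0⟩
  have hq : qq (Fin b) = b := by
    unfold qq
    rw [Fintype.card_fin]
  have hN : Tendsto (fun N : ℕ => N) l atTop := tendsto_id.mono_left hl
  have hcard : 2 ≤ Fintype.card (Fin b) := by rw [Fintype.card_fin]; exact hb
  have hE : NormalAlong b x l ↔ Equi l (fun _ => digit b x) (fun N => N) := by
    unfold NormalAlong Equi
    simp only [count_eq, hq]
    exact Iff.rfl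
  have hA : AtLeast b x l W ↔ Low l (fun _ => digit b x) (fun N => N) W := by
    unfold AtLeast Low dens
    simp only [count_eq, hq]
  constructor
  · rw [hE, hA, equi_iff_words hN hcard hM hW]
    refine and_congr_right fun _ => ?_
    unfold ColdWords
    simp only [count_eq, hq]
    constructor
    · intro h ε hε L0
      obtain ⟨L, hL, H, h1, h2⟩ := h ε hε L0
      refine ⟨L, hL, H, h1, fun u hu hML hw => h2 u hu ?_⟩
      have h3 : win (ext u) M 0 = fun j => u (Fin.castLE hML j) := by
        funext j
        show ext u (0 + j) = _
        unfold ext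
        rw [dif_pos (by omega)]
        congr 1
        ext
        simp
      rw [h3]
      exact hw
    · intro h ε hε L0
      obtain ⟨L, hL, H, h1, h2⟩ := h ε hε (max L0 M)
      have hML : M ≤ L := (le_max_right _ _).trans hL
      refine ⟨L, (le_max_left _ _).trans hL, H, h1, fun u hu hw => h2 u hu hML ?_⟩
      have h3 : win (ext u) M 0 = fun j => u (Fin.castLE hML j) := by
        funext j
        show ext u (0 + j) = _
        unfold ext
        rw [dif_pos (by omega)]
        congr 1
        ext
        simp
      rw [← h3]
      exact hw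
  · rw [hE, hA, equi_iff_points hN hcard hM hW]
    refine and_congr_right fun _ => ?_
    have hwin : ∀ (y : ℕ → Fin b) (k : ℕ), win y k 0 = fun j : Fin k => y j := by
      intro y k
      funext j
      show y (0 + j) = y j
      rw [zero_add]
    unfold HotPoint
    simp only [count_eq, hq, hwin]
    constructor
    · rintro h y hy ⟨ε, hε, hK⟩
      obtain ⟨K, hK'⟩ := h y hy ε hε
      obtain ⟨L, hL, hf⟩ := hK K
      exact hf ((hK' L hL).mono fun N hN' => not_lt.mpr hN')
    · intro h y hy ε hε
      by_contra hcon
      push Not at hcon
      refine h y hy ⟨ε, hε, fun K => ?_⟩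
      obtain ⟨L, hL, hf⟩ := hcon K
      exact ⟨L, hL, hf⟩

end Pool.Agent.Results.MP_5b6025_nt.LocalHotSpots
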