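import Pool.Agent.H609.WP.Values

/-!
# Algebraic irrational numbers of height `H` with `c (log H) ^ 2` nearly normal digits

Let `f` be a power series with rational coefficients which is algebraic over `ℚ(x)` and is not a rational
function, for instance `f = (1 - 4 x) ^ (1/2)`. There are `A` and `c > 0`, which depend on `f` only, such
that for every base `b ≥ 2`, all `w`, all exponents `K ≥ 1`, all `ε > 0` and all large `n`: the series
`α = f(b ^ (-n))` converges; `α` is irrational and is a root of a nonzero integral polynomial of degree at most
`A` with coefficients at most `b ^ (A n)`; and for every `M ≥ b ^ (A n)` and every real polynomial `P` of degree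
less than `K` all the numbers `P(m) + m ^ K α`, `m < M`, except for `M exp (-κ n)` of them (`κ > 0` depends on `f`,
`b`, `w`, `K` and `ε`, but not on `P`), have all words of at most `w` digits in base `b` with the right frequency in
every window of the first `c n ^ 2` digits: in a window of `N` places a word of `k ≤ w` digits stands `N b ^ (-k)`
times, up to an error of at most `ε (N + n)`.

For `P = 0`, `M = b ^ (A n)` and `1 ≤ m < M` the numbers `m ^ K α` (for `K = 1` the multiples of `α`) are algebraic
irrational numbers of bounded degree with heights `H` at most `b ^ (C n)`, so that the number of the digits is at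
least a constant times `(log H) ^ 2`. Earlier results on the digits of the algebraic numbers of a family reach
`A log H` digits, and at most `(log H) ^ (3/2 - ε)` digits for typical numbers of large families. There are at
most `H ^ C` algebraic numbers of given degree and of height `H`, so the digits beyond the place `C log H` cannot be
prescribed. For instance (`Pool.Agent.H609.GF.Roots`, with `f = (1 + x) ^ (1/r)`): for `r ≥ 2` and `δ > 0`
there are at least `X ^ (1/r - δ)` integers `N ≤ X` whose `r`-th root is irrational and nearly normal in
this sense up to `c (log X) ^ 2` digits.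

Proof (in `Pool.Agent.H609.GF` and `Pool.Agent.H609.WP`). By the theorem of Eisenstein (proved in `Gr`, together
with the geometric growth of the coefficients) the `j`-th coefficient `a j` of `f` is at most `C ^ (j + 1)` and the
first `j` coefficients have a common denominator at most `C ^ (j + 1)`. As `f` satisfies a linear differential
equation (`Ode`), its coefficients satisfy a linear recurrence, and there are only bounded gaps between the
nonzero ones (`Gap`). Hence, for `i ≤ c n ^ 2` and `1 ≤ u ≤ b ^ (n / 4)`, the number `u b ^ i α` is at distance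
at least `b ^ (-g n)` from the integers: modulo one, and multiplied with the common denominator `Δ` of
the first coefficients, it is `Δ u a j b ^ (i - n j)`, where `a j` is the next nonzero coefficient, up
to a smaller error (`Key`). By the inverse theorem for the sums of Weyl (an earlier result,
`H373R2.NB.IW_all`, which has no loss of a power of `M`) the exponential sums of `u b ^ i (P(m) + m ^ K α)`, `m < M`,
are at most `M b ^ (-ℓ)` for `u < b ^ ℓ`, `ℓ ≤ δ n` (`P_WEY`). With Fejér's kernel it follows that no word of
`ℓ ≤ δ n` digits stands at the place `i` in more than `C M b ^ (-ℓ)` of the numbers (`P_CEL`). Most words of `ℓ`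
digits are nearly normal, so most of the numbers are nearly normal in every window (`P_MOS`, `P_MAI`). The number
`α` is irrational because otherwise its denominator would be at most `b ^ (A n)`, in contradiction to the
Padé approximants of `f` of degree `A` (`Irr`, `Irr2`).
-/

set_option autoImplicit false

namespace Pool.Agent.Results.MP_5b6025_nt.LogSquaredDigits

open Finset

/-- the word of the `k` digits in base `b` of `z` which follow the first `n` digits after the point,
read as an integer between `0` and `b ^ k - 1` -/
noncomputable def word (b k n : ℕ) (z : ℝ) : ℕ :=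
  ⌊(b : ℝ) ^ k * Int.fract ((b : ℝ) ^ n * z)⌋₊

/-- every word of at most `w` digits in base `b` has the right frequency in every window of the first `D`
digits of `z`, up to an error `ε N + E`, where `N` is the length of the window -/
def NormalUpTo (b w D : ℕ) (ε E z : ℝ) : Prop :=
  ∀ k s N j : ℕ, 1 ≤ k → k ≤ w → j < b ^ k → s + N ≤ D →
    |((({i ∈ range N | word b k (s + i) z = j} : Finset ℕ).card : ℕ) : ℝ) - N / (b : ℝ) ^ k| ≤
      ε * N + E

/-- **Values of algebraic functions at `b ^ (-n)`.** Let `f` be a power series over `ℚ` which is
algebraic over `ℚ(x)` and not a rational function. For large `n` the number `α = f(b ^ (-n))` is an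
irrational algebraic number, of bounded degree and of height at most `b ^ (C n)`, and most of the numbers
`P(m) + m ^ K α`, `m < M`, are nearly normal in base `b` up to the place `c n ^ 2`, for every real polynomial `P` of
degree less than `K`. -/
theorem result (f : PowerSeries ℚ) (hf : IsAlgebraic (Polynomial ℚ) f)
    (hr : ∀ P Q : Polynomial ℚ, (Q : PowerSeries ℚ) * f = (P : PowerSeries ℚ) → Q = 0) :
    ∃ A : ℕ, ∃ c : ℝ, 0 < c ∧ ∀ b : ℕ, 2 ≤ b → ∀ w K : ℕ, 1 ≤ K → ∀ ε : ℝ, 0 < ε →
      ∃ κ : ℝ, 0 < κ ∧ ∃ n₀ : ℕ, ∀ n : ℕ, n₀ ≤ n → ∃ α : ℝ,
        HasSum (fun k : ℕ => ((PowerSeries.coeff k f : ℚ) : ℝ) * (((b : ℝ) ^ n)⁻¹) ^ k) α ∧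
        Irrational α ∧
        (∃ R : Polynomial ℤ, R ≠ 0 ∧ R.natDegree ≤ A ∧ (∀ k, |R.coeff k| ≤ (b : ℤ) ^ (A * n)) ∧
          Polynomial.aeval α R = 0) ∧
        ∀ M : ℕ, b ^ (A * n) ≤ M → ∀ P : Polynomial ℝ, P.natDegree < K →
          (({m : ℕ | m < M ∧
            ¬ NormalUpTo b w ⌊c * (n : ℝ) ^ 2⌋₊ ε (ε * n)
              (P.eval (m : ℝ) + (m : ℝ) ^ K * α)}.ncard : ℕ) : ℝ) ≤
            M * Real.exp (-(κ * n)) := by
  classical
  obtain ⟨A, c, hc, h⟩ := Pool.Agent.H609.WP.values hf hr
  refine ⟨A, c, hc, fun b hb w K hK ε hε => ?_⟩
  obtain ⟨κ, hκ, n₀, h⟩ := h b hb w K hK ε hε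
  refine ⟨κ, hκ, n₀, fun n hn => ?_⟩
  obtain ⟨h1, h2, h3, h4⟩ := h n hn
  refine ⟨Pool.Agent.H609.GF.ev (((b : ℝ) ^ n)⁻¹) f, h1.of_norm.hasSum, h2, h3,
    fun M hM P hP => ?_⟩
  have h5 := h4 M hM P hP ⌊c * (n : ℝ) ^ 2⌋₊ (Nat.floor_le (by positivity))
  rw [← Set.ncard_coe_finset] at h5
  refine le_trans (le_of_eq ?_) h5
  congr 2
  ext m
  simp only [Set.mem_setOf_eq, coe_filter, mem_range]
  rfl

end Pool.Agent.Results.MP_5b6025_nt.LogSquaredDigits
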