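import Pool.Agent.H607.Uni.Alg
import Mathlib

/-!
# One very slowly growing chain of multipliers which makes all irrational algebraic numbers normal in
all integer bases at once

There is ONE chain `R_0 = 1 ∣ R_1 ∣ R_2 ∣ …` of positive integers, `R_n = c_0 c_1 ⋯ c_{n-1}`, where every
`c_n` is `1` or a prime, such that

* `c_n = 1` for all but `o(N / log N)` of the `n < N`, and `log R_N = o(N)`;
* `c_n ≤ n ^ Φ(n)` for all large `n`, where `Φ` is any given function which tends to infinity;
* let `β_1, …, β_r > 1` be different rational numbers (for instance different integers), and for each of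
  them let `x_{i1}, …, x_{ik}` be real algebraic numbers such that `1, x_{i1}, …, x_{ik}` are linearly
  independent over `ℚ` (for instance `k = 1` and `x_i` an irrational algebraic number). Then the
  sequence `(x_{ij} β_i^n R_n)_{i,j}`, `n = 0, 1, 2, …`, is equidistributed modulo one;
* if moreover `β_i = B_i` are integers, then all digit matrices `D_1, …, D_r` with `k` rows and `m`
  columns occur together in the digits of the tuples `(x_{i1}, …, x_{ik})`, `i = 1, …, r`, with the
  frequency `∏ B_i ^ (- m k)`, where the digits of the `i`-th tuple are taken in the numeration system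
  with the radices `B_i c_0, B_i c_1, B_i c_2, …`, which are equal to `B_i` at almost all places (the digit
  of `x` at the place `n` in the numeration system with the radices `q_0, q_1, …` is
  `⌊x q_0 q_1 ⋯ q_n⌋ mod q_n`).

So with one and the same choice of the `c_n`, all irrational algebraic numbers are normal in all the
numeration systems with the radices `B c_n`, `B = 2, 3, 4, …`, and the expansions in different
systems are independent of each other. The problem asks whether `c_n = 1` for all `n` is possible for one base.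

The proof: `c_n` is a random prime, uniformly distributed in a set of about `n^{v(log n)}` primes, at places
`n` of density `1 / (v(log n)^2 log n)`, where `v` tends to infinity so slowly that for each of the countably
many sequences `t(n) = ∑_i y_i β_i^n` (`y_i` irrational and algebraic) the lower bounds
`g^r |g t(m) - z| ≥ exp (- m / v^2)`, `(g² R)^r |g (R t(m+d) - t(m)) - z| ≥ exp (- m / v^2)` for
`log g, log R, d ≤ η m`, which follow from the subspace theorem, hold for all large `m`.
-/

set_option autoImplicit false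

namespace Pool.Agent.Results.MP_5b6025_nt.OneChainAllBases

open Finset Filter Topology MeasureTheory
open Pool.Agent.H607 Pool.Agent.H607.Uni
open Pool.Agent.H607.Pw (Equid)

/-- `r` tuples of `k` real numbers, integers `B_1, …, B_r ≥ 2` and a sequence `c` of positive integers: the
digit matrices of the tuples, the `i`-th of them expanded in the numeration system with the radices
`B_i c_0, B_i c_1, …`, are jointly equidistributed. -/
def JointlyNormal {r k : ℕ} (B : Fin r → ℕ) (c : ℕ → ℕ) (z : Fin r → Fin k → ℝ) : Prop :=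
  ∀ (m : ℕ) (D : (i : Fin r) → Fin k → Fin m → Fin (B i)),
    Tendsto (fun N : ℕ => ({n : ℕ | n < N ∧ ∀ (i : Fin r) (j : Fin k) (t : Fin m),
      ⌊z i j * ∏ l ∈ range (n + t + 1), ((B i : ℝ) * c l)⌋ % ((B i : ℤ) * c (n + t)) =
        ((D i j t : ℕ) : ℤ)}.ncard : ℝ) / N)
      atTop (𝓝 (∏ i, 1 / (B i : ℝ) ^ (m * k)))

theorem result (Φ : ℕ → ℕ) (hΦ : Tendsto Φ atTop atTop) :
    ∃ c : ℕ → ℕ, (∀ n, c n = 1 ∨ (c n).Prime) ∧ (∀ᶠ n : ℕ in atTop, c n ≤ n ^ Φ n) ∧
      (∀ ε : ℝ, 0 < ε → ∀ᶠ N : ℕ in atTop,
        (((range N).filter fun n => c n ≠ 1).card : ℝ) ≤ ε * N / Real.log N) ∧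
      (∀ ε : ℝ, 0 < ε → ∀ᶠ N : ℕ in atTop, ((∏ n ∈ range N, c n : ℕ) : ℝ) ≤ Real.exp (ε * N)) ∧
      (∀ (r k : ℕ) (β : Fin r → ℚ) (x : Fin r → Fin k → ℝ), (∀ i, 1 < β i) → Function.Injective β →
        (∀ i j, IsAlgebraic ℚ (x i j)) →
        (∀ i, LinearIndependent ℚ (Fin.cons 1 (x i) : Fin (k + 1) → ℝ)) →
        Equid (fun n (p : Fin r × Fin k) => x p.1 p.2 * ((β p.1 : ℚ) : ℝ) ^ n * ∏ i ∈ range n, (c i : ℝ))) ∧
      ∀ (r k : ℕ) (B : Fin r → ℕ) (x : Fin r → Fin k → ℝ), (∀ i, 2 ≤ B i) → Function.Injective B →
        (∀ i j, IsAlgebraic ℚ (x i j)) →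
        (∀ i, LinearIndependent ℚ (Fin.cons 1 (x i) : Fin (k + 1) → ℝ)) →
        JointlyNormal B c x := by
  classical
  choose η hη0 hη1 hA hB using Idx.exists_η
  obtain ⟨c, h1, h2, h3, h4, h5⟩ := universal (T := Idx) Idx.t Idx.r η (fun τ => τ.hr) hη0 hη1 hA hB Φ hΦ
  refine ⟨c, h1, h2, h3, h4, ?_, ?_⟩
  · intro r k β x hβ hinj hx hlin
    exact equid_of_idx c h5 β hβ hinj x hx hlin
  · intro r k B x hB2 hinj hx hlin m D
    have hzero : Tendsto (fun N : ℕ => (((range N).filter fun n => c n ≠ 1).card : ℝ) / N)
        atTop (𝓝 0) := by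
      have h6 : Tendsto (fun N : ℕ => 1 / Real.log N) atTop (𝓝 0) :=
        tendsto_const_nhds.div_atTop (Real.tendsto_log_atTop.comp tendsto_natCast_atTop_atTop)
      refine squeeze_zero' (Eventually.of_forall fun N => by positivity) ?_ h6
      filter_upwards [h3 1 one_pos, eventually_ge_atTop 2] with N hN hN2
      have hN2' : (2 : ℝ) ≤ N := by exact_mod_cast hN2
      rw [div_le_iff₀ (by linarith)]
      refine hN.trans_eq ?_
      ring
    refine digits_chain B hB2 c hzero x ?_ m D
    have h6 := equid_of_idx c h5 (fun i => (B i : ℚ)) (fun i => by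
      have := hB2 i
      exact_mod_cast (by omega : 1 < B i)) (fun i j hij => by
        have h7 : ((B i : ℕ) : ℚ) = ((B j : ℕ) : ℚ) := hij
        exact hinj (by exact_mod_cast h7)) x hx hlin
    simpa using h6

end Pool.Agent.Results.MP_5b6025_nt.OneChainAllBases
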