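import Pool.Agent.H609.AV.Trig

/-!
# The joint digits of the real and imaginary parts of roots of unity and of their powers

Let `m`, `B`, `A`, `T` and `κ, ε > 0` be given and let `N` be large. For every primitive `N`-th root of
unity `z` the doubles of the `2 m` numbers `Re z, Im z, …, Re z ^ m, Im z ^ m` are algebraic integers and
these numbers are linearly independent over `ℚ` together with `1`; in particular they are irrational
algebraic numbers. For all primitive `N`-th roots of unity `z`, except for at most `φ(N) (log N) ^ (-T)` of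
them, these numbers are jointly normal up to the place `A log N`, in all bases up to `B` (also in different
bases for the different numbers, and in several multiplicatively independent bases for the same number),
with the discrepancy of random numbers. So almost all conjugates of the tuple are normal up to an arbitrary
multiple of `log N` digits, although only `log N` bits are needed to describe them. The same holds for all but
`N (log N) ^ (-T)` of the `N`-th roots of every complex number `w` with `exp (-C N) ≤ |w| ≤ exp (C N)`,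
uniformly in `w`.

Proof (in `Pool.Agent.H609.AV`). The following is proved for functions `f_1, …, f_r` of several variables
and parameters which are real analytic near a compact set, such that near no point of this set a
nontrivial linear combination with real coefficients is a polynomial of the variables: the values at the
rational points with the denominator `M` are jointly normal up to the place `A log M`, up to
`M ^ n (log M) ^ (-T)` exceptions, `n` the number of the variables. Near every point, and for every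
combination on the unit sphere, a derivative of arbitrarily high order in an integer direction does not
vanish, because otherwise the combination would be a polynomial; by compactness finitely many directions
and orders are sufficient, and they give a saving in the exponential sums for all frequencies between
`M ^ κ` and `M ^ A` by van der Corput's method (`Q270.RT.line_one`, an earlier result). From
the exponential sums one passes to the digits by the moment method of the earlier results
(`Q270.MB.disc_rep`). A nontrivial trigonometric polynomial is not a polynomial near any point, because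
it would be a periodic polynomial. The linear independence: a relation gives `P (z) = i Q (z)` with rational
polynomials of degree at most `2 m`, so `P ^ 2 + Q ^ 2`, of degree at most `4 m < φ(N)`, vanishes at `z` and
is zero; hence `P = Q = 0`.
-/

set_option autoImplicit false

namespace Pool.Agent.Results.MP_5b6025_nt.RootsOfUnity

open Finset Filter Topology
open Pool.Agent.H609.AV (JN pt pt_mem pt_not NonPoly tp tp_not_poly totient_lower)
open Pool.Agent.Q270.SR (Disc)

/-- no positive powers of `a` and `b` are equal -/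
def MultIndep (a b : ℕ) : Prop := ∀ x y : ℕ, 1 ≤ x → 1 ≤ y → a ^ x ≠ b ^ y

/-- the discrepancy of the `L` points `(b_1 ^ (s_1 + i) x_1, …, b_n ^ (s_n + i) x_n)`, `i < L`, modulo
one is at most `E`: the number of the `i < L` such that the fractional part of `b_j ^ (s_j + i) x_j` is
smaller than `t_j` for all `j` differs from `L ∏ t_j` by at most `E`, for all `0 ≤ t_j ≤ 1` -/
def DiscLe {n : ℕ} (b s : Fin n → ℕ) (L : ℕ) (x : Fin n → ℝ) (E : ℝ) : Prop :=
  ∀ t : Fin n → ℝ, (∀ j, 0 ≤ t j) → (∀ j, t j ≤ 1) →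
    |(({i : ℕ | i < L ∧ ∀ j, Int.fract ((b j : ℝ) ^ (s j + i) * x j) < t j}.ncard : ℕ) : ℝ) -
      L * ∏ j, t j| ≤ E

/-- The real numbers `x_i`, `i ∈ ι`, are jointly normal up to the place `A log N`. Any finite system
of them may be chosen, each in any base up to `B`; the same number may be taken in several bases if
any two of these are multiplicatively independent. The joint discrepancy is at most `ε log N` in all
windows `s_j, …, s_j + L - 1` of places below `A log N`, and at most `(log N) ^ (1/2 + ε)` if the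
windows begin after the first `κ log N` places (in the sense of `N ^ κ ≤ b_j ^ (s_j)`). -/
def JointlyNormal {ι : Type} (B : ℕ) (A κ ε : ℝ) (N : ℕ) (x : ι → ℝ) : Prop :=
  ∀ (n : ℕ) (σ : Fin n → ι) (b : Fin n → ℕ), 1 ≤ n → (∀ j, 2 ≤ b j ∧ b j ≤ B) →
    (∀ j j', j ≠ j' → σ j = σ j' → MultIndep (b j) (b j')) →
    ∀ (s : Fin n → ℕ) (L : ℕ), (∀ j, (s j : ℝ) + L ≤ A * Real.log N) →
      DiscLe b s L (fun j => x (σ j)) (ε * Real.log N) ∧
      ((∀ j, (N : ℝ) ^ κ ≤ (b j : ℝ) ^ s j) →
        DiscLe b s L (fun j => x (σ j)) (Real.log N ^ (1 / 2 + ε)))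

/-- the real parts (second index `false`) and the imaginary parts (second index `true`) of the
powers `z, z ^ 2, …, z ^ m` -/
noncomputable def coord (m : ℕ) (z : ℂ) : Fin m × Bool → ℝ :=
  fun p => if p.2 then (z ^ ((p.1 : ℕ) + 1)).im else (z ^ ((p.1 : ℕ) + 1)).re

section Independence

open Polynomial

lemma pow_conj {z : ℂ} (hz : ‖z‖ = 1) {m k : ℕ} (hk : k ≤ m) :
    z ^ m * (starRingEnd ℂ) (z ^ k) = z ^ (m - k) := by
  have h1 : z ^ k * (starRingEnd ℂ) (z ^ k) = 1 := by
    rw [Complex.mul_conj, Complex.normSq_eq_norm_sq, norm_pow, hz]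
    simp
  rw [← Nat.sub_add_cancel hk, pow_add, mul_assoc, Nat.sub_add_cancel hk, h1, mul_one]

lemma pow_re' {z : ℂ} (hz : ‖z‖ = 1) {m k : ℕ} (hk : k ≤ m) :
    z ^ m * (2 * (((z ^ k).re : ℝ) : ℂ)) = z ^ (m + k) + z ^ (m - k) := by
  rw [← pow_conj hz hk, pow_add, ← mul_add, Complex.add_conj]
  push_cast
  ring

lemma pow_im' {z : ℂ} (hz : ‖z‖ = 1) {m k : ℕ} (hk : k ≤ m) :
    Complex.I * (z ^ m * (2 * (((z ^ k).im : ℝ) : ℂ))) = z ^ (m + k) - z ^ (m - k) := by
  rw [← pow_conj hz hk, pow_add, ← mul_sub, Complex.sub_conj]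
  push_cast
  ring

lemma lin_indep {m N : ℕ} {z : ℂ} (hz : IsPrimitiveRoot z N) (hN : 4 * m < N.totient) :
    LinearIndependent ℚ (fun o : Option (Fin m × Bool) => o.elim (1 : ℝ) (coord m z)) := by
  have hN0 : 0 < N := Nat.totient_pos.1 (by omega)
  have hz1 : ‖z‖ = 1 := hz.norm'_eq_one hN0.ne'
  rw [Fintype.linearIndependent_iff]
  intro g hg
  set c : ℚ := g none with hc
  set a : Fin m → ℚ := fun j => g (some (j, false)) with ha
  set b : Fin m → ℚ := fun j => g (some (j, true)) with hb
  set P : ℚ[X] := C (2 * c) * X ^ m +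
    ∑ j : Fin m, C (a j) * (X ^ (m + ((j : ℕ) + 1)) + X ^ (m - ((j : ℕ) + 1))) with hP
  set Q : ℚ[X] := ∑ j : Fin m, C (b j) * (X ^ (m + ((j : ℕ) + 1)) - X ^ (m - ((j : ℕ) + 1))) with hQ
  -- the relation
  have hrel : (c : ℝ) + ∑ j : Fin m, ((b j : ℝ) * (z ^ ((j : ℕ) + 1)).im +
      (a j : ℝ) * (z ^ ((j : ℕ) + 1)).re) = 0 := by
    rw [Fintype.sum_option, Fintype.sum_prod_type] at hg
    simp only [Fintype.sum_bool, Option.elim, coord, if_true, Rat.smul_def, mul_one] at hg
    simpa [hc, ha, hb] using hg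
  have hPz : aeval z P = 2 * (c : ℂ) * z ^ m +
      ∑ j : Fin m, (a j : ℂ) * (z ^ m * (2 * (((z ^ ((j : ℕ) + 1)).re : ℝ) : ℂ))) := by
    rw [hP, map_add, map_mul, map_sum]
    congr 1
    · simp
    · refine Finset.sum_congr rfl fun j _ => ?_
      rw [pow_re' hz1 (by omega : (j : ℕ) + 1 ≤ m)]
      simp
  have hQz : aeval z Q = Complex.I *
      ∑ j : Fin m, (b j : ℂ) * (z ^ m * (2 * (((z ^ ((j : ℕ) + 1)).im : ℝ) : ℂ))) := by
    rw [hQ, map_sum, Finset.mul_sum]
    refine Finset.sum_congr rfl fun j _ => ?_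
    rw [mul_left_comm, pow_im' hz1 (by omega : (j : ℕ) + 1 ≤ m)]
    simp
  have hPQ : aeval z P = Complex.I * aeval z Q := by
    have h1 : ((c : ℂ) + ∑ j : Fin m, ((b j : ℂ) * (((z ^ ((j : ℕ) + 1)).im : ℝ) : ℂ) +
        (a j : ℂ) * (((z ^ ((j : ℕ) + 1)).re : ℝ) : ℂ))) = 0 := by
      have := congrArg (fun x : ℝ => (x : ℂ)) hrel
      push_cast at this
      exact this
    have h2 := congrArg (fun x => 2 * z ^ m * x) h1
    simp only [mul_zero, mul_add, Finset.mul_sum, Finset.sum_add_distrib] at h2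
    rw [hPz, hQz, ← mul_assoc, Complex.I_mul_I]
    have h3 : ∑ j : Fin m, 2 * z ^ m * ((b j : ℂ) * (((z ^ ((j : ℕ) + 1)).im : ℝ) : ℂ)) =
        ∑ j : Fin m, (b j : ℂ) * (z ^ m * (2 * (((z ^ ((j : ℕ) + 1)).im : ℝ) : ℂ))) :=
      Finset.sum_congr rfl fun j _ => by ring
    have h4 : ∑ j : Fin m, 2 * z ^ m * ((a j : ℂ) * (((z ^ ((j : ℕ) + 1)).re : ℝ) : ℂ)) =
        ∑ j : Fin m, (a j : ℂ) * (z ^ m * (2 * (((z ^ ((j : ℕ) + 1)).re : ℝ) : ℂ))) :=
      Finset.sum_congr rfl fun j _ => by ring
    rw [h3, h4] at h2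
    linear_combination h2
  -- the sum of squares vanishes
  have hS : aeval z (P ^ 2 + Q ^ 2) = 0 := by
    rw [map_add, map_pow, map_pow, hPQ, mul_pow, Complex.I_sq]
    ring
  have hPd : P.natDegree ≤ 2 * m := by
    refine (natDegree_add_le _ _).trans (max_le ?_ ?_)
    · exact (natDegree_C_mul_X_pow_le _ _).trans (by omega)
    · refine natDegree_sum_le_of_forall_le _ _ fun j _ => ?_
      refine (natDegree_C_mul_le _ _).trans ((natDegree_add_le _ _).trans (max_le ?_ ?_))
      · exact (natDegree_X_pow_le _).trans (by have := j.2; omega)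
      · exact (natDegree_X_pow_le _).trans (by omega)
  have hQd : Q.natDegree ≤ 2 * m := by
    refine natDegree_sum_le_of_forall_le _ _ fun j _ => ?_
    refine (natDegree_C_mul_le _ _).trans ((natDegree_sub_le _ _).trans (max_le ?_ ?_))
    · exact (natDegree_X_pow_le _).trans (by have := j.2; omega)
    · exact (natDegree_X_pow_le _).trans (by omega)
  have hSd : (P ^ 2 + Q ^ 2).natDegree ≤ 4 * m := by
    refine (natDegree_add_le _ _).trans (max_le ?_ ?_)
    · exact (natDegree_pow_le).trans (by omega)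
    · exact (natDegree_pow_le).trans (by omega)
  have hS0 : P ^ 2 + Q ^ 2 = 0 := by
    by_contra hne
    have h1 := minpoly.degree_le_of_ne_zero ℚ z hne hS
    rw [← cyclotomic_eq_minpoly_rat hz hN0] at h1
    have h2 := natDegree_le_natDegree h1
    rw [natDegree_cyclotomic] at h2
    omega
  have hzero : P = 0 ∧ Q = 0 := by
    have h1 : ∀ r : ℚ, P.eval r = 0 ∧ Q.eval r = 0 := by
      intro r
      have h2 := congrArg (eval r) hS0
      simp only [eval_add, eval_pow, eval_zero] at h2
      constructor <;> nlinarith [sq_nonneg (P.eval r), sq_nonneg (Q.eval r)]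
    constructor
    · exact Polynomial.funext fun r => by rw [(h1 r).1, eval_zero]
    · exact Polynomial.funext fun r => by rw [(h1 r).2, eval_zero]
  have hco : ∀ (j : Fin m), (X ^ (m - ((j : ℕ) + 1)) : ℚ[X]).coeff m = 0 := by
    intro j
    rw [coeff_X_pow, if_neg (by have := j.2; omega)]
  intro o
  match o with
  | none =>
    have h1 := congrArg (fun p : ℚ[X] => p.coeff m) hzero.1
    simp only [hP, coeff_add, finsetSum_coeff, coeff_C_mul, coeff_zero, coeff_X_pow] at h1
    have h2 : ∀ j : Fin m, a j * ((if m = m + ((j : ℕ) + 1) then (1 : ℚ) else 0) +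
        if m = m - ((j : ℕ) + 1) then 1 else 0) = 0 := by
      intro j
      rw [if_neg (by omega), if_neg (by have := j.2; omega)]
      simp
    rw [Finset.sum_eq_zero fun j _ => h2 j] at h1
    simp only [if_true, mul_one, add_zero] at h1
    show c = 0
    linarith
  | some (j, false) =>
    have h1 := congrArg (fun p : ℚ[X] => p.coeff (m + ((j : ℕ) + 1))) hzero.1
    simp only [hP, coeff_add, finsetSum_coeff, coeff_C_mul, coeff_zero, coeff_X_pow] at h1
    rw [if_neg (by omega), mul_zero, zero_add, Finset.sum_eq_single j] at h1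
    · rw [if_pos rfl, if_neg (by omega)] at h1
      simpa using h1
    · intro i _ hij
      have : (i : ℕ) ≠ j := fun h => hij (Fin.ext h)
      rw [if_neg (by omega), if_neg (by omega)]
      simp
    · simp
  | some (j, true) =>
    have h1 := congrArg (fun p : ℚ[X] => p.coeff (m + ((j : ℕ) + 1))) hzero.2
    simp only [hQ, finsetSum_coeff, coeff_C_mul, coeff_sub, coeff_zero, coeff_X_pow] at h1
    rw [Finset.sum_eq_single j] at h1
    · rw [if_pos rfl, if_neg (by omega)] at h1
      simpa using h1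
    · intro i _ hij
      have : (i : ℕ) ≠ j := fun h => hij (Fin.ext h)
      rw [if_neg (by omega), if_neg (by omega)]
      simp
    · simp

lemma integral {m N : ℕ} {z : ℂ} (hz : IsPrimitiveRoot z N) (hN0 : 0 < N) (p : Fin m × Bool) :
    IsIntegral ℤ (2 * coord m z p) := by
  have hz1 : ‖z‖ = 1 := hz.norm'_eq_one hN0.ne'
  have h0 : IsIntegral ℤ z := hz.isIntegral hN0
  have hI : IsIntegral ℤ Complex.I := ⟨X ^ 2 + 1, by monicity!, by simp⟩
  set k : ℕ := (p.1 : ℕ) + 1 with hk
  have h1 : IsIntegral ℤ (z ^ k) := h0.pow k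
  have h2 : IsIntegral ℤ ((starRingEnd ℂ) (z ^ k)) := by
    have := h1.map (Complex.conjAe.toAlgHom.restrictScalars ℤ)
    simpa using this
  have h3 : IsIntegral ℤ ((2 * coord m z p : ℝ) : ℂ) := by
    unfold coord
    by_cases hp : p.2
    · simp only [hp, if_true]
      have h4 : ((2 * (z ^ k).im : ℝ) : ℂ) =
          (z ^ k - (starRingEnd ℂ) (z ^ k)) * (-Complex.I) := by
        rw [Complex.sub_conj]
        linear_combination (((2 * (z ^ k).im : ℝ) : ℂ)) * Complex.I_mul_I
      rw [h4]
      exact (h1.sub h2).mul hI.neg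
    · simp only [hp]
      have h4 : ((2 * (z ^ k).re : ℝ) : ℂ) = z ^ k + (starRingEnd ℂ) (z ^ k) := by
        rw [Complex.add_conj]
      show IsIntegral ℤ (((2 * (z ^ k).re : ℝ)) : ℂ)
      rw [h4]
      exact h1.add h2
  exact (isIntegral_algebraMap_iff (A := ℝ) (B := ℂ)
    (FaithfulSMul.algebraMap_injective ℝ ℂ)).1 h3

end Independence

lemma disc_iff {n : ℕ} (b s : Fin n → ℕ) (L : ℕ) (x : Fin n → ℝ) (E : ℝ) :
    DiscLe b s L x E ↔ Disc b s L x E := by
  classical
  unfold DiscLe Disc
  refine forall_congr' fun t => ?_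
  have h : {i : ℕ | i < L ∧ ∀ j, Int.fract ((b j : ℝ) ^ (s j + i) * x j) < t j} =
      (((Finset.range L).filter (fun i => ∀ j, Int.fract ((b j : ℝ) ^ (s j + i) * x j) < t j) :
        Finset ℕ) : Set ℕ) := by
    ext i
    simp
  rw [h, Set.ncard_coe_finset]

lemma of_JN {ι : Type} {r : ℕ} (e : Fin r ≃ ι) {B : ℕ} {A κ ε : ℝ} {N : ℕ} {x : ι → ℝ}
    (h : JN B A κ ε N (fun i => x (e i))) : JointlyNormal B A κ ε N x := by
  intro n σ b hn hb hind s L hsL
  have h1 := h n (fun j => e.symm (σ j)) b hn hb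
    (fun j j' hjj hs => hind j j' hjj (e.symm.injective hs)) s L hsL
  simp only [Equiv.apply_symm_apply] at h1
  simp only [disc_iff]
  exact h1

lemma pow_re_im {ρ s : ℝ} {z : ℂ}
    (hz : z = (ρ : ℂ) * Complex.exp ((2 * Real.pi * s : ℝ) * Complex.I)) (k : ℕ) :
    (z ^ k).re = ρ ^ k * Real.cos (2 * Real.pi * k * s) ∧
      (z ^ k).im = ρ ^ k * Real.sin (2 * Real.pi * k * s) := by
  have h1 : z ^ k = ((ρ ^ k : ℝ) : ℂ) * Complex.exp ((2 * Real.pi * k * s : ℝ) * Complex.I) := by
    rw [hz, mul_pow, ← Complex.exp_nat_mul]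
    push_cast
    congr 2
    ring
  rw [h1, Complex.re_ofReal_mul, Complex.im_ofReal_mul, Complex.exp_ofReal_mul_I_re,
    Complex.exp_ofReal_mul_I_im]
  exact ⟨rfl, rfl⟩

/-- the functions; `c 0` and `c 1` are the angles `k / N` and `θ / N`, and `c 2` is the absolute value -/
noncomputable def Fn {m r : ℕ} (e : Fin r ≃ Fin m × Bool) (i : Fin r) (c : Fin 3 → ℝ) : ℝ :=
  c 2 ^ (((e i).1 : ℕ) + 1) *
    (if (e i).2 then Real.sin (2 * Real.pi * (((e i).1 : ℕ) + 1) * (c 0 + c 1))
      else Real.cos (2 * Real.pi * (((e i).1 : ℕ) + 1) * (c 0 + c 1)))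

lemma proj_ana (i : Fin 3) (c : Fin 3 → ℝ) : AnalyticAt ℝ (fun c : Fin 3 → ℝ => c i) c :=
  (ContinuousLinearMap.proj (R := ℝ) (φ := fun _ : Fin 3 => ℝ) i).analyticAt c

lemma Fn_ana {m r : ℕ} (e : Fin r ≃ Fin m × Bool) (i : Fin r) (c : Fin 3 → ℝ) :
    AnalyticAt ℝ (Fn e i) c := by
  have h0 : AnalyticAt ℝ (fun c : Fin 3 → ℝ =>
      2 * Real.pi * (((e i).1 : ℕ) + 1) * (c 0 + c 1)) c :=
    analyticAt_const.mul ((proj_ana 0 c).add (proj_ana 1 c))
  unfold Fn
  refine AnalyticAt.mul ((proj_ana 2 c).pow _) ?_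
  by_cases h : (e i).2
  · simp only [h, if_true]
    exact Real.analyticAt_sin.comp h0
  · simp only [h]
    exact Real.analyticAt_cos.comp h0

lemma Fn_sum {m r : ℕ} (e : Fin r ≃ Fin m × Bool) (u : Fin r → ℝ) (c : Fin 3 → ℝ) :
    ∑ i, u i * Fn e i c = tp (fun p => u (e.symm p) * c 2 ^ ((p.1 : ℕ) + 1)) (c 0 + c 1) := by
  have h1 : ∑ i, u i * Fn e i c = ∑ p : Fin m × Bool, u (e.symm p) * Fn e (e.symm p) c :=
    (Equiv.sum_comp e.symm (fun i => u i * Fn e i c)).symm
  rw [h1, Fintype.sum_prod_type]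
  unfold tp
  refine sum_congr rfl fun j _ => ?_
  rw [Fintype.sum_bool]
  unfold Fn
  simp only [Equiv.apply_symm_apply, if_true]
  rw [add_comm, ← mul_assoc, ← mul_assoc]
  rfl

lemma Fn_nonpoly {m r : ℕ} (e : Fin r ≃ Fin m × Bool) (c0 : Fin 3 → ℝ) (hc0 : c0 2 ≠ 0) :
    NonPoly {0} (Fn e) c0 := by
  intro u hu
  rintro ⟨P, hP⟩
  have hu' : (fun p : Fin m × Bool => u (e.symm p) * c0 2 ^ ((p.1 : ℕ) + 1)) ≠ 0 := by
    intro h
    apply hu
    funext i
    have := congrFun h (e i)
    simp only [Equiv.symm_apply_apply, Pi.zero_apply, mul_eq_zero] at this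
    rcases this with h1 | h1
    · exact h1
    · exact absurd h1 (pow_ne_zero _ hc0)
  set p : Polynomial ℝ := MvPolynomial.aeval
    (![(Polynomial.X - Polynomial.C (c0 1)), Polynomial.C (c0 1), Polynomial.C (c0 2)] :
      Fin 3 → Polynomial ℝ) P with hp
  have hpe : ∀ t : ℝ, p.eval t = MvPolynomial.eval ![t - c0 1, c0 1, c0 2] P := by
    intro t
    have h1 : p.eval t = (Polynomial.aeval t) p := by
      rw [Polynomial.aeval_def, Polynomial.eval₂_eq_eval_map]
      simp
    rw [h1, hp, ← AlgHom.comp_apply, MvPolynomial.comp_aeval]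
    have h2 : MvPolynomial.eval ![t - c0 1, c0 1, c0 2] P =
        MvPolynomial.aeval ![t - c0 1, c0 1, c0 2] P := by
      rw [MvPolynomial.aeval_def, MvPolynomial.eval₂_eq_eval_map]
      simp
    rw [h2]
    congr 2
    funext i
    fin_cases i <;> simp
  apply tp_not_poly hu' p (c0 0 + c0 1)
  have hcont : Tendsto (fun t : ℝ => (![t - c0 1, c0 1, c0 2] : Fin 3 → ℝ)) (𝓝 (c0 0 + c0 1))
      (𝓝 c0) := by
    rw [tendsto_pi_nhds]
    intro i
    fin_cases i
    · have : ContinuousAt (fun t : ℝ => t - c0 1) (c0 0 + c0 1) := by fun_prop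
      have h2 := this.tendsto
      rw [add_sub_cancel_right] at h2
      exact h2
    · exact tendsto_const_nhds
    · exact tendsto_const_nhds
  filter_upwards [hcont.eventually hP] with t ht
  rw [hpe t, ← ht (fun i hi => by
    fin_cases i
    · simp at hi
    · rfl
    · rfl), Fn_sum]
  have e1 : (![t - c0 1, c0 1, c0 2] : Fin 3 → ℝ) 2 = c0 2 := rfl
  have e2 : (![t - c0 1, c0 1, c0 2] : Fin 3 → ℝ) 0 + (![t - c0 1, c0 1, c0 2] : Fin 3 → ℝ) 1 =
      t := by simp
  rw [e1, e2]

/-- the statement about the digits -/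
lemma digits (m B : ℕ) (A C κ ε T : ℝ) (hκ : 0 < κ) (hε : 0 < ε) :
    ∃ N₀ : ℕ, ∀ N : ℕ, N₀ ≤ N →
      (∀ w : ℂ, Real.exp (-(C * N)) ≤ ‖w‖ → ‖w‖ ≤ Real.exp (C * N) →
        (({z : ℂ | z ^ N = w ∧ ¬ JointlyNormal B A κ ε N (coord m z)}.ncard : ℕ) : ℝ) ≤
          N * Real.log N ^ (-T)) ∧
      (({z : ℂ | IsPrimitiveRoot z N ∧ ¬ JointlyNormal B A κ ε N (coord m z)}.ncard : ℕ) : ℝ) ≤
        N.totient * Real.log N ^ (-T) := by
  classical
  set r : ℕ := Fintype.card (Fin m × Bool) with hr
  set e : Fin r ≃ Fin m × Bool := (Fintype.equivFin (Fin m × Bool)).symm with he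
  set X : Set (Fin 3 → ℝ) := Set.Icc ![0, 0, Real.exp (-|C|)] ![1, 1, Real.exp |C|] with hX
  have hX2 : ∀ c ∈ X, c 2 ≠ 0 := by
    intro c hc
    have h1 := hc.1 2
    have h2 : Real.exp (-|C|) ≤ c 2 := h1
    have := Real.exp_pos (-|C|)
    linarith
  obtain ⟨N₁, hN₁⟩ := Pool.Agent.H609.AV.main (S := {0}) B A κ ε (T + 2) hκ hε (fun _ => 0)
    (Φ := Fn e) (X := X) isCompact_Icc (fun c _ i => Fn_ana e i c)
    (fun c hc => Fn_nonpoly e c (hX2 c hc))
  have hl2 : 0 < Real.log 2 := Real.log_pos (by norm_num)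
  have hlogt : Tendsto (fun H : ℕ => Real.log (H : ℝ)) atTop atTop :=
    Real.tendsto_log_atTop.comp tendsto_natCast_atTop_atTop
  obtain ⟨N₂, hN₂⟩ := eventually_atTop.1 ((hlogt.eventually_ge_atTop 1).and
    (hlogt.eventually_ge_atTop (1 / Real.log 2 + 1)))
  -- the roots of all numbers
  have hroots : ∀ N : ℕ, max N₁ (max N₂ 1) ≤ N → ∀ w : ℂ, Real.exp (-(|C| * N)) ≤ ‖w‖ →
      ‖w‖ ≤ Real.exp (|C| * N) → ∀ Zs : Finset ℂ,
      (∀ z ∈ Zs, z ^ N = w ∧ ¬ JointlyNormal B A κ ε N (coord m z)) →
      (Zs.card : ℝ) ≤ N * Real.log N ^ (-(T + 2)) := by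
    intro N hN w hw1 hw2 Zs hZs
    have hN1 : N₁ ≤ N := le_of_max_le_left hN
    have hNpos : 1 ≤ N := le_of_max_le_right (le_of_max_le_right hN)
    have hNR : (0 : ℝ) < N := by exact_mod_cast hNpos
    have hN1R : (1 : ℝ) ≤ N := by exact_mod_cast hNpos
    have hw0 : 0 < ‖w‖ := lt_of_lt_of_le (Real.exp_pos _) hw1
    -- the absolute value
    set ρ : ℝ := ‖w‖ ^ ((N : ℝ)⁻¹) with hρ
    have hρ0 : 0 < ρ := Real.rpow_pos_of_pos hw0 _
    have hρN : ρ ^ N = ‖w‖ := Real.rpow_inv_natCast_pow hw0.le (by omega)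
    have hρ1 : Real.exp (-|C|) ≤ ρ := by
      have h1 : Real.exp (-|C|) = Real.exp (-(|C| * N)) ^ ((N : ℝ)⁻¹) := by
        rw [← Real.exp_mul]
        congr 1
        field_simp
      rw [h1]
      exact Real.rpow_le_rpow (Real.exp_pos _).le hw1 (by positivity)
    have hρ2 : ρ ≤ Real.exp |C| := by
      have h1 : Real.exp |C| = Real.exp (|C| * N) ^ ((N : ℝ)⁻¹) := by
        rw [← Real.exp_mul]
        congr 1
        field_simp
      rw [h1]
      exact Real.rpow_le_rpow hw0.le hw2 (by positivity)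
    -- angles in `[0, 1)`
    have hang : ∀ z : ℂ, ∃ s : ℝ, 0 ≤ s ∧ s < 1 ∧
        z = (‖z‖ : ℂ) * Complex.exp ((2 * Real.pi * s : ℝ) * Complex.I) := by
      intro z
      refine ⟨Int.fract (z.arg / (2 * Real.pi)), Int.fract_nonneg _, Int.fract_lt_one _, ?_⟩
      have h1 := Complex.norm_mul_exp_arg_mul_I z
      have h4 : Complex.exp (z.arg * Complex.I) =
          Complex.exp ((2 * Real.pi * Int.fract (z.arg / (2 * Real.pi)) : ℝ) * Complex.I) := by
        rw [Complex.exp_eq_exp_iff_exists_int]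
        refine ⟨⌊z.arg / (2 * Real.pi)⌋, ?_⟩
        have h2 : z.arg = 2 * Real.pi * (z.arg / (2 * Real.pi)) := by
          field_simp
        have h3 : 2 * Real.pi * Int.fract (z.arg / (2 * Real.pi)) =
            z.arg - 2 * Real.pi * ⌊z.arg / (2 * Real.pi)⌋ := by
          rw [Int.fract]
          linarith
        rw [h3]
        push_cast
        ring
      rw [← h4]
      exact h1.symm
    obtain ⟨θ, hθ0, hθ1, hwθ⟩ := hang w
    have hex : ∀ z : ℂ, z ^ N = w → ∃ k : ℤ, 0 ≤ k ∧ k < N ∧
        z = (ρ : ℂ) * Complex.exp ((2 * Real.pi * ((k : ℝ) / N + θ / N) : ℝ) * Complex.I) := by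
      intro z hz
      have hz1 : ‖z‖ = ρ := by
        have h1 : ‖z‖ ^ N = ρ ^ N := by rw [← norm_pow, hz, hρN]
        exact (pow_left_inj₀ (norm_nonneg z) hρ0.le (by omega)).1 h1
      obtain ⟨s, hs0, hs1, hzs⟩ := hang z
      rw [hz1] at hzs
      have h2 : Complex.exp ((2 * Real.pi * (N * s) : ℝ) * Complex.I) =
          Complex.exp ((2 * Real.pi * θ : ℝ) * Complex.I) := by
        have h3 : (ρ : ℂ) ^ N * Complex.exp ((2 * Real.pi * (N * s) : ℝ) * Complex.I) =
            (ρ : ℂ) ^ N * Complex.exp ((2 * Real.pi * θ : ℝ) * Complex.I) := by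
          have h4 : (ρ : ℂ) ^ N = (‖w‖ : ℂ) := by
            rw [← hρN]
            push_cast
            rfl
          nth_rewrite 2 [h4]
          rw [← hwθ, ← hz, congrArg (fun x : ℂ => x ^ N) hzs]
          rw [mul_pow, ← Complex.exp_nat_mul]
          congr 2
          push_cast
          ring
        exact mul_left_cancel₀ (pow_ne_zero _ (by exact_mod_cast hρ0.ne')) h3
      rw [Complex.exp_eq_exp_iff_exists_int] at h2
      obtain ⟨k, hk⟩ := h2
      have h3 : (N : ℝ) * s = θ + k := by
        have h4 : ((2 * Real.pi * (N * s) : ℝ) : ℂ) * Complex.I =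
            ((2 * Real.pi * (θ + k) : ℝ) : ℂ) * Complex.I := by
          rw [hk]
          push_cast
          ring
        have h5 := mul_right_cancel₀ Complex.I_ne_zero h4
        have h6 : 2 * Real.pi * (N * s) = 2 * Real.pi * (θ + k) := by exact_mod_cast h5
        exact mul_left_cancel₀ (by positivity) h6
      have h7 : (-1 : ℝ) < k := by
        have : 0 ≤ (N : ℝ) * s := by positivity
        linarith
      have h8 : (k : ℝ) < N := by
        have : (N : ℝ) * s < N * 1 := by gcongr
        linarith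
      refine ⟨k, ?_, ?_, ?_⟩
      · have : (-1 : ℤ) < k := by exact_mod_cast h7
        omega
      · exact_mod_cast h8
      · have h9 : s = (k : ℝ) / N + θ / N := by
          rw [← add_div, eq_div_iff hNR.ne']
          linarith
        rw [hzs, h9]
    choose! kk hk0 hk1 hk2 using hex
    set af : ℂ → Fin 3 → ℤ := fun z => ![kk z, 0, 0] with haf
    set y : Fin 3 → ℝ := ![0, θ / N, ρ] with hy
    have hinj : Set.InjOn af Zs := by
      intro z hz z' hz' h
      have h1 := congrFun h 0
      simp only [haf, Matrix.cons_val_zero] at h1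
      rw [hk2 z (hZs z hz).1, hk2 z' (hZs z' hz').1, h1]
    have h1 := hN₁ N hN1 y (Zs.image af) (by
      intro a ha
      obtain ⟨z, hz, rfl⟩ := mem_image.1 ha
      obtain ⟨hzw, hzn⟩ := hZs z hz
      have g0 : pt {0} N y (af z) 0 = (kk z : ℝ) / N := by
        rw [pt_mem (by simp), haf]
        simp
      have g1 : pt {0} N y (af z) 1 = θ / N := by
        rw [pt_not (by simp), hy]
        simp
      have g2 : pt {0} N y (af z) 2 = ρ := by
        rw [pt_not (by simp), hy]
        simp
      refine ⟨fun i hi => ?_, ?_, fun hJ => hzn ?_⟩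
      · fin_cases i
        · simp at hi
        · simp [haf]
        · simp [haf]
      · rw [hX, Set.mem_Icc]
        have hkR : (0 : ℝ) ≤ kk z := by exact_mod_cast hk0 z hzw
        have hkR' : (kk z : ℝ) ≤ N := by exact_mod_cast (hk1 z hzw).le
        constructor
        · intro i
          fin_cases i
          · show (0 : ℝ) ≤ pt {0} N y (af z) 0
            rw [g0]
            positivity
          · show (0 : ℝ) ≤ pt {0} N y (af z) 1
            rw [g1]
            positivity
          · show Real.exp (-|C|) ≤ pt {0} N y (af z) 2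
            rw [g2]
            exact hρ1
        · intro i
          fin_cases i
          · show pt {0} N y (af z) 0 ≤ (1 : ℝ)
            rw [g0, div_le_one hNR]
            exact hkR'
          · show pt {0} N y (af z) 1 ≤ (1 : ℝ)
            rw [g1, div_le_one hNR]
            linarith
          · show pt {0} N y (af z) 2 ≤ Real.exp |C|
            rw [g2]
            exact hρ2
      · apply of_JN e
        have h2 : (fun i => coord m z (e i)) =
            fun j => (N : ℝ) ^ 0 * Fn e j (pt {0} N y (af z)) := by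
          funext j
          rw [pow_zero, one_mul]
          unfold coord Fn
          rw [g0, g1, g2]
          have h3 := pow_re_im (hk2 z hzw) (((e j).1 : ℕ) + 1)
          rw [h3.1, h3.2]
          by_cases hj : (e j).2
          · simp only [hj, if_true]
            push_cast
            rfl
          · simp only [hj]
            push_cast
            rfl
        rw [h2]
        exact hJ)
    rw [card_image_of_injOn hinj] at h1
    simpa using h1
  refine ⟨max N₁ (max N₂ 1), fun N hN => ?_⟩
  have hN1 : 1 ≤ N := le_of_max_le_right (le_of_max_le_right hN)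
  have hNR : (0 : ℝ) < N := by exact_mod_cast hN1
  obtain ⟨hL1, hL2⟩ := hN₂ N (le_of_max_le_left (le_of_max_le_right hN))
  have hL0 : 0 < Real.log (N : ℝ) := by linarith
  have hfin : ∀ w : ℂ, {z : ℂ | z ^ N = w}.Finite := by
    intro w
    have h1 : {z : ℂ | z ^ N = w} ⊆
        (((Polynomial.X ^ N - Polynomial.C w : Polynomial ℂ).roots.toFinset : Finset ℂ) :
          Set ℂ) := by
      intro z hz
      rw [Finset.mem_coe, Multiset.mem_toFinset,
        Polynomial.mem_roots (Polynomial.X_pow_sub_C_ne_zero (by omega) w)]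
      rw [Polynomial.IsRoot, Polynomial.eval_sub, Polynomial.eval_pow, Polynomial.eval_X,
        Polynomial.eval_C]
      rw [hz, sub_self]
    exact (Finset.finite_toSet _).subset h1
  have hCN : C * N ≤ |C| * N := by
    gcongr
    exact le_abs_self C
  have hmain : ∀ w : ℂ, Real.exp (-(|C| * N)) ≤ ‖w‖ → ‖w‖ ≤ Real.exp (|C| * N) →
      ∀ Z : Set ℂ, Z ⊆ {z : ℂ | z ^ N = w ∧
      ¬ JointlyNormal B A κ ε N (coord m z)} →
      ((Z.ncard : ℕ) : ℝ) ≤ N * Real.log N ^ (-(T + 2)) := by
    intro w hw1 hw2 Z hZ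
    have hZf : Z.Finite := (hfin w).subset fun z hz => (hZ hz).1
    rw [Set.ncard_eq_toFinset_card _ hZf]
    exact hroots N hN w hw1 hw2 _ fun z hz => hZ (by rwa [Set.Finite.mem_toFinset] at hz)
  have hp : Real.log N ^ (-(T + 2)) ≤ Real.log N ^ (-T) :=
    Real.rpow_le_rpow_of_exponent_le hL1 (by linarith)
  constructor
  · intro w hw1 hw2
    refine (hmain w (le_trans ?_ hw1) (hw2.trans ?_) _ subset_rfl).trans ?_
    · apply Real.exp_le_exp.2
      linarith
    · apply Real.exp_le_exp.2
      linarith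
    · gcongr
  · have hC0 : 0 ≤ |C| * N := by positivity
    refine (hmain 1 ?_ ?_ _ fun z hz => ⟨hz.1.pow_eq_one, hz.2⟩).trans ?_
    · rw [norm_one]
      apply Real.exp_le_one_iff.2
      linarith
    · rw [norm_one]
      exact Real.one_le_exp hC0
    have h1 := totient_lower hN1
    have h2 : Real.log (N : ℝ) / Real.log 2 + 1 ≤ Real.log N ^ (2 : ℝ) := by
      have h3 : Real.log N ^ (2 : ℝ) = Real.log N * Real.log N := by
        rw [show (2 : ℝ) = 1 + 1 by norm_num, Real.rpow_add hL0, Real.rpow_one]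
      rw [h3]
      have h4 : Real.log (N : ℝ) / Real.log 2 = 1 / Real.log 2 * Real.log N := by ring
      rw [h4]
      nlinarith
    have h5 : Real.log N ^ (-T) = Real.log N ^ (2 : ℝ) * Real.log N ^ (-(T + 2)) := by
      rw [← Real.rpow_add hL0]
      congr 1
      ring
    have h6 : 0 ≤ Real.log (N : ℝ) ^ (-(T + 2)) := Real.rpow_nonneg hL0.le _
    rw [h5]
    calc (N : ℝ) * Real.log N ^ (-(T + 2)) ≤
          ((Real.log N / Real.log 2 + 1) * N.totient) * Real.log N ^ (-(T + 2)) := by gcongr
      _ ≤ (Real.log N ^ (2 : ℝ) * N.totient) * Real.log N ^ (-(T + 2)) := by gcongr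
      _ = _ := by ring

/-- Euler's function tends to infinity -/
lemma totient_large (K : ℕ) : ∃ N₀ : ℕ, ∀ N : ℕ, N₀ ≤ N → K < N.totient := by
  have hl2 : 0 < Real.log 2 := Real.log_pos (by norm_num)
  have h1 : Tendsto (fun x : ℝ => x / (Real.log x / Real.log 2 + 1)) atTop atTop := by
    have h2 : (fun x : ℝ => Real.log x / Real.log 2 + 1) =o[atTop] (fun x : ℝ => x) := by
      refine Asymptotics.IsLittleO.add ?_ ?_
      · have := Real.isLittleO_log_id_atTop.const_mul_left (Real.log 2)⁻¹
        refine this.congr_left fun x => ?_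
        rw [div_eq_inv_mul]
      · exact Asymptotics.isLittleO_const_id_atTop 1
    have h3 := h2.tendsto_div_nhds_zero
    have h4 : ∀ᶠ x : ℝ in atTop, 0 < (Real.log x / Real.log 2 + 1) / x := by
      filter_upwards [eventually_gt_atTop (1 : ℝ)] with x hx
      have := Real.log_pos hx
      positivity
    have h5 := (tendsto_inv_nhdsGT_zero (𝕜 := ℝ)).comp
      (tendsto_nhdsWithin_iff.2 ⟨h3, h4⟩)
    refine h5.congr fun x => ?_
    simp only [Function.comp, inv_div]
  obtain ⟨N₀, h2⟩ := eventually_atTop.1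
    ((h1.comp tendsto_natCast_atTop_atTop).eventually_gt_atTop (K : ℝ))
  refine ⟨max N₀ 1, fun N hN => ?_⟩
  have hN1 : 1 ≤ N := le_of_max_le_right hN
  have hNR : (1 : ℝ) ≤ N := by exact_mod_cast hN1
  have h3 := h2 N (le_of_max_le_left hN)
  simp only [Function.comp] at h3
  have h4 := totient_lower hN1
  have h5 : 0 < Real.log (N : ℝ) / Real.log 2 + 1 := by
    have := Real.log_nonneg hNR
    positivity
  have h6 : (K : ℝ) < N.totient := by
    rw [lt_div_iff₀ h5] at h3
    by_contra h7
    push Not at h7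
    have h8 : (Real.log (N : ℝ) / Real.log 2 + 1) * N.totient ≤
        K * (Real.log (N : ℝ) / Real.log 2 + 1) := by
      rw [mul_comm]
      gcongr
    linarith
  exact_mod_cast h6

/-- For every large `N`: for every primitive `N`-th root of unity `z` the doubles of the real and the
imaginary parts of `z, z ^ 2, …, z ^ m` are algebraic integers and these `2 m` numbers and `1` are linearly
independent over `ℚ`; all but `φ(N) (log N) ^ (-T)` of these `z` have the property that the `2 m` numbers are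
jointly normal up to the place `A log N`; and all but `N (log N) ^ (-T)` of the `N`-th roots `z` of any
complex number `w` with `exp (-C N) ≤ |w| ≤ exp (C N)` have the same property. -/
theorem result (m B : ℕ) (A C κ ε T : ℝ) (hκ : 0 < κ) (hε : 0 < ε) :
    ∃ N₀ : ℕ, ∀ N : ℕ, N₀ ≤ N →
      (∀ z : ℂ, IsPrimitiveRoot z N → (∀ p, IsIntegral ℤ (2 * coord m z p)) ∧
        LinearIndependent ℚ (fun o : Option (Fin m × Bool) => o.elim (1 : ℝ) (coord m z))) ∧
      (({z : ℂ | IsPrimitiveRoot z N ∧ ¬ JointlyNormal B A κ ε N (coord m z)}.ncard : ℕ) : ℝ) ≤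
        N.totient * Real.log N ^ (-T) ∧
      (∀ w : ℂ, Real.exp (-(C * N)) ≤ ‖w‖ → ‖w‖ ≤ Real.exp (C * N) →
        (({z : ℂ | z ^ N = w ∧ ¬ JointlyNormal B A κ ε N (coord m z)}.ncard : ℕ) : ℝ) ≤
          N * Real.log N ^ (-T)) := by
  obtain ⟨N₁, h1⟩ := digits m B A C κ ε T hκ hε
  obtain ⟨N₂, h2⟩ := totient_large (4 * m)
  refine ⟨max (max N₁ N₂) 1, fun N hN => ⟨fun z hz => ⟨fun p => integral hz ?_ p, lin_indep hz ?_⟩,
    (h1 N ?_).2, (h1 N ?_).1⟩⟩
  · exact le_of_max_le_right hN
  · exact h2 N (le_of_max_le_right (le_of_max_le_left hN))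
  · exact le_of_max_le_left (le_of_max_le_left hN)
  · exact le_of_max_le_left (le_of_max_le_left hN)

end Pool.Agent.Results.MP_5b6025_nt.RootsOfUnity
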